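import Pool.Agent.V11243.PD.Coll

/-!
# The `3x+d` maps, all `d` at once, in the residue classes modulo powers of an arbitrary prime

`H = 0.94995...` is the binary entropy of `log 2 / log 3` in bits. Let `0 ≤ δ < η ≤ 1`, `0 < c < 1 - H` and
`s = 1 - c η + (1 - c) δ`.

1. Let `p` be a prime and `σ > 0`. For all `α ∈ ℤ_p` outside of a set of Hausdorff dimension at most `s / σ` and all
large `T`, EVERY integer `x` with `|x| ≤ T` and `|x - α|_p ≤ T ^ (-σ)` has, for EVERY odd `d` prime to `3` with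
`|d| ≤ |x| ^ δ`, an element of absolute value at most `|x| ^ η` in its `3x+d` orbit. For `s < σ < 1` and `p ^ j` about
`T ^ σ` these `x` are all members of the progression `α` modulo `p ^ j` up to `T`; there are about `2 T ^ (1 - σ)` of them.

2. For every map `φ` of the integers to a metric space and `σ > 0`, for all `z` outside of a set of Hausdorff dimension
at most `s / σ`, only finitely many integers `x` with `dist (φ x) z ≤ max 1 |x| ^ (-σ)` have not this property.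
-/

set_option autoImplicit false

open MeasureTheory

namespace Pool.Agent.Results.MP_d0d59f_nt.PadicClasses

/-- the `3x+d` map on the integers -/
def T (d x : ℤ) : ℤ := if x % 2 = 0 then x / 2 else (3 * x + d) / 2

/-- the binary entropy of `log 2 / log 3` in bits, `0.94995...` -/
noncomputable def H : ℝ := Real.binEntropy (Real.log 2 / Real.log 3) / Real.log 2

/-- for EVERY odd `d` prime to `3` with `|d| ≤ |x| ^ δ` the `3x+d` orbit of `x` has an element of absolute value at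
most `|x| ^ η` -/
def AllComeDown (δ η : ℝ) (x : ℤ) : Prop :=
  ∀ d : ℤ, d % 2 = 1 → ¬ (3 : ℤ) ∣ d → |(d : ℝ)| ≤ |(x : ℝ)| ^ δ →
    ∃ k : ℕ, |(((T d)^[k] x : ℤ) : ℝ)| ≤ |(x : ℝ)| ^ η

theorem not_bad {δ η : ℝ} {x : ℤ} (h : x ∉ Pool.Agent.V11243.PD.Bad δ η) : AllComeDown δ η x := by
  intro d h1 h3 hd
  by_contra hcon
  push Not at hcon
  exact h ⟨d, h1, h3, hd, hcon⟩

theorem result :
    (∀ δ η c : ℝ, 0 ≤ δ → δ < η → η ≤ 1 → 0 < c → c < 1 - H →
      (∀ (p : ℕ) [Fact p.Prime] (σ : ℝ), 0 < σ →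
        ∃ E : Set ℤ_[p], dimH E ≤ ENNReal.ofReal ((1 - c * η + (1 - c) * δ) / σ) ∧
          ∀ α ∉ E, ∃ T₀ : ℝ, ∀ T ≥ T₀, ∀ x : ℤ, |(x : ℝ)| ≤ T → ‖(x : ℤ_[p]) - α‖ ≤ T ^ (-σ) →
            AllComeDown δ η x) ∧
      (∀ (M : Type) [MetricSpace M] (φ : ℤ → M) (σ : ℝ), 0 < σ →
        ∃ E : Set M, dimH E ≤ ENNReal.ofReal ((1 - c * η + (1 - c) * δ) / σ) ∧
          ∀ z ∉ E, {x : ℤ | dist (φ x) z ≤ (max 1 |(x : ℝ)|) ^ (-σ) ∧ ¬ AllComeDown δ η x}.Finite)) ∧
    H < 0.951 := by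
  refine ⟨fun δ η c hδ hδη hη hc0 hc => ⟨fun p _ σ hσ => ?_, fun M _ φ σ hσ => ?_⟩,
    Pool.Agent.H319R2.beta_lt⟩
  · obtain ⟨K, hK⟩ := Pool.Agent.V11243.PD.count_bad hδ hδη hη hc0 hc
    have hb : 0 < H := Pool.Agent.TH930.PS.beta_pos
    have hs : 0 ≤ 1 - c * η + (1 - c) * δ := by
      have h1 : c * η ≤ 1 := by nlinarith
      have h2 : 0 ≤ (1 - c) * δ := mul_nonneg (by linarith) hδ
      linarith
    obtain ⟨E, h1, h2⟩ := Pool.Agent.V11243.PD.family_int p (fun _ => Pool.Agent.V11243.PD.Bad δ η) hs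
      (fun _ => ⟨K, hK⟩) hσ
    refine ⟨E, h1, fun α hα => ?_⟩
    obtain ⟨T₀, hT₀⟩ := h2 α hα 0
    exact ⟨T₀, fun T hT x hx hxα => not_bad (hT₀ T hT x hx hxα)⟩
  · obtain ⟨K, hK⟩ := Pool.Agent.V11243.PD.count_bad hδ hδη hη hc0 hc
    have hb : 0 < H := Pool.Agent.TH930.PS.beta_pos
    have hs : 0 ≤ 1 - c * η + (1 - c) * δ := by
      have h1 : c * η ≤ 1 := by nlinarith
      have h2 : 0 ≤ (1 - c) * δ := mul_nonneg (by linarith) hδ
      linarith
    obtain ⟨E, h1, h2⟩ := Pool.Agent.H107.ME.dim_family φ (fun x : ℤ => max 1 |(x : ℝ)|)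
      (fun x => le_max_left _ _) hs hσ (fun _ : Unit => Pool.Agent.V11243.PD.Bad δ η) (fun _ ε hε => by
        refine ⟨|K|, fun X hX => ?_⟩
        have hsub : {x : ℤ | x ∈ Pool.Agent.V11243.PD.Bad δ η ∧ max 1 |(x : ℝ)| ≤ X} ⊆
            {x : ℤ | |(x : ℝ)| ≤ X ∧ x ∈ Pool.Agent.V11243.PD.Bad δ η} := by
          rintro x ⟨a, b⟩
          exact ⟨(le_max_right _ _).trans b, a⟩
        have hfin := Pool.Agent.V11243.PD.fin_le X fun x => x ∈ Pool.Agent.V11243.PD.Bad δ η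
        refine ⟨hfin.subset hsub, ?_⟩
        have g1 : ((_ : ℕ) : ℝ) ≤ ((_ : ℕ) : ℝ) := Nat.cast_le.2 (Set.ncard_le_ncard hsub hfin)
        refine g1.trans ((hK X hX).trans ?_)
        refine (mul_le_mul_of_nonneg_right (le_abs_self K) (by positivity)).trans ?_
        exact mul_le_mul_of_nonneg_left (Real.rpow_le_rpow_of_exponent_le hX (by linarith)) (abs_nonneg K))
    refine ⟨E, h1, fun z hz => (h2 z hz ()).subset ?_⟩
    rintro x ⟨a, b⟩
    refine ⟨?_, a⟩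
    by_contra hcon
    exact b (not_bad hcon)

end Pool.Agent.Results.MP_d0d59f_nt.PadicClasses
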