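import Pool.Agent.V11201.SH.G4
import Pool.Agent.V11201.SH.M3

set_option autoImplicit false

/-! The `3x+d` maps in short progressions `x + d, x + 2d, ..., x + Hd`, uniformly in `d`: merging orbits,
solid predecessor sets, and sets which suffice for the existence of a finite set met by all orbits. -/

namespace Pool.Agent.Results.MP_d0d59f_nt.ShortProgressions

open Filter Topology

/-- the `3x+d` map on the integers -/
def T (d x : ℤ) : ℤ := if x % 2 = 0 then x / 2 else (3 * x + d) / 2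

/-- the orbits of `x` and `y` have the same `t`-th term for some `t` with `4 ^ t ≤ N` -/
def Merge (d : ℤ) (N : ℕ) (x y : ℤ) : Prop := ∃ t : ℕ, 4 ^ t ≤ N ∧ (T d)^[t] x = (T d)^[t] y

/-- the number of the `1 ≤ j ≤ H` for which `x + d j` does not merge with `x` -/
noncomputable def apart (d : ℤ) (N : ℕ) (x : ℤ) (H : ℕ) : ℕ :=
  {j : ℕ | 1 ≤ j ∧ j ≤ H ∧ ¬ Merge d N x (x + d * j)}.ncard

/-- the number of the `1 ≤ j ≤ H` for which `a` is not in the orbit of `x + d j` -/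
noncomputable def misses (d a x : ℤ) (H : ℕ) : ℕ :=
  {j : ℕ | 1 ≤ j ∧ j ≤ H ∧ ¬ ∃ i : ℕ, (T d)^[i] (x + d * j) = a}.ncard

/-- For every `ε > 0` there is `c > 0` such that for all `θ > 0` and infinitely many `N`: for all but `ε N`
of the `n ≤ N` at least `c H` of the integers `s n + d, s n + 2 d, ..., s n + H d` are in `S`,
`H = ⌊N ^ θ⌋`. -/
def Spread (d s : ℤ) (S : Set ℤ) : Prop :=
  ∀ ε : ℝ, 0 < ε → ∃ c : ℝ, 0 < c ∧ ∀ θ : ℝ, 0 < θ → ∃ᶠ N : ℕ in atTop,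
    ({n : ℕ | 1 ≤ n ∧ n ≤ N ∧ (({j : ℕ | 1 ≤ j ∧ j ≤ ⌊(N : ℝ) ^ θ⌋₊ ∧ s * (n : ℤ) + d * j ∈ S}.ncard : ℕ) : ℝ) <
      c * ⌊(N : ℝ) ^ θ⌋₊}.ncard : ℝ) ≤ ε * N

/-- the `3x+d` orbit of every element of `S` meets one and the same finite set -/
def FiniteSetFor (d : ℤ) (S : Set ℤ) : Prop :=
  ∃ F : Set ℤ, F.Finite ∧ ∀ x ∈ S, ∃ i : ℕ, (T d)^[i] x ∈ F

/-- the number of the `1 ≤ j ≤ H` for which the orbits of `x` and `x + d j` do not have the same `t`-th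
term for any `t` -/
noncomputable def nomeet (d x : ℤ) (H : ℕ) : ℕ :=
  {j : ℕ | 1 ≤ j ∧ j ≤ H ∧ ¬ ∃ t : ℕ, (T d)^[t] x = (T d)^[t] (x + d * j)}.ncard

/-- `g n = n ^ o(1)`: `log (1 + g n) / log n` tends to `0` -/
def SubPower (g : ℕ → ℕ) : Prop := Tendsto (fun n : ℕ => Real.log (1 + g n) / Real.log n) atTop (𝓝 0)

/-- the positive integers with the property `P` have the natural density `δ` -/
def HasDensity (P : ℕ → Prop) (δ : ℝ) : Prop :=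
  Tendsto (fun N : ℕ => ({n : ℕ | 1 ≤ n ∧ n ≤ N ∧ P n}.ncard : ℝ) / N) atTop (𝓝 δ)

open Pool.Agent.V11201.SH in
/-- SHORT PROGRESSIONS. For all odd `d` and both signs `s`:
(1) for at most `(A / κ) √((1 + log (1 + H)) log log N / log N) N` of the `n ≤ N` more than `κ H` of the
integers `x + d, ..., x + H d`, `x = s n`, do not merge with `x`; the constant `A` does not depend on `d`;
(2) for every `ε > 0` there are `θ > 0` and `N₀`, independent of `d`, such that for `N ≥ N₀` and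
`H ≤ N ^ θ` at most `ε H` of them do not merge with `x`, for all but `ε N` of the `n ≤ N`;
(3) for every `ε > 0` there are `θ > 0` and `N₀` (depending on `d`) such that for `N ≥ N₀`, for all but
`ε N` of the `n ≤ N` and ALL `1 ≤ H ≤ N ^ θ`, all but `ε H` of the `x + j d`, `j ≤ H`, meet `x`; for almost
all `n` this is so for all `1 ≤ H ≤ g n`, if `g n = n ^ o(1)`.
Let moreover `d` be prime to `3`.
(4) The set of the integers whose orbit contains `a`, `a` prime to `3`, is solid: for at least `c N / M` of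
the `n ≤ N`, `M ≥ |a|, |d|`, it contains `x` and all but `ε H` of `x + d, ..., x + H d`.
(5) If `S` is spread, every integer prime to `3` of its side is in the orbit of an element of `S`.
(6) If `S` is spread on both sides, and the orbits of the elements of `S` meet a finite set, then the orbits
of all integers meet a finite set. -/
theorem result :
    (∃ A : ℝ, 0 < A ∧ ∀ d : ℤ, Odd d → ∀ s : ℤ, s = 1 ∨ s = -1 → ∀ N : ℕ, 16 ≤ N → ∀ (H : ℕ) (κ : ℝ), 0 < κ →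
      ({n : ℕ | 1 ≤ n ∧ n ≤ N ∧ κ * H < apart d N (s * n) H}.ncard : ℝ) ≤
        A / κ * √ ((1 + Real.log (1 + H)) * (Real.log (Real.log N) / Real.log N)) * N) ∧
    (∀ ε : ℝ, 0 < ε → ∃ θ : ℝ, 0 < θ ∧ ∃ N₀ : ℕ, ∀ N ≥ N₀, ∀ d : ℤ, Odd d → ∀ s : ℤ, s = 1 ∨ s = -1 →
      ∀ H : ℕ, (H : ℝ) ≤ (N : ℝ) ^ θ →
        ({n : ℕ | 1 ≤ n ∧ n ≤ N ∧ ε * H < apart d N (s * n) H}.ncard : ℝ) ≤ ε * N) ∧
    (∀ d : ℤ, Odd d → ∀ s : ℤ, s = 1 ∨ s = -1 → ∀ ε : ℝ, 0 < ε →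
      (∃ θ : ℝ, 0 < θ ∧ ∃ N₀ : ℕ, ∀ N ≥ N₀, ({n : ℕ | 1 ≤ n ∧ n ≤ N ∧
        ∃ H : ℕ, 1 ≤ H ∧ (H : ℝ) ≤ (N : ℝ) ^ θ ∧ ε * H < nomeet d (s * n) H}.ncard : ℝ) ≤ ε * N) ∧
      ∀ g : ℕ → ℕ, SubPower g →
        HasDensity (fun n => ∀ H : ℕ, 1 ≤ H → H ≤ g n → (nomeet d (s * n) H : ℝ) ≤ ε * H) 1) ∧
    (∃ c : ℝ, 0 < c ∧ ∀ (M : ℕ) (ε : ℝ), 1 ≤ M → 0 < ε → ∃ θ : ℝ, 0 < θ ∧ ∃ N₀ : ℕ, ∀ N ≥ N₀,
      ∀ d a : ℤ, Odd d → ¬ (3 : ℤ) ∣ d → ¬ (3 : ℤ) ∣ a → |a| ≤ M → |d| ≤ M →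
      ∀ s : ℤ, s = 1 ∨ s = -1 → 0 < s * a → ∀ H : ℕ, (H : ℝ) ≤ (N : ℝ) ^ θ →
        c / M * N ≤ ({n : ℕ | 1 ≤ n ∧ n ≤ N ∧ (∃ i : ℕ, (T d)^[i] (s * n) = a) ∧
          (misses d a (s * n) H : ℝ) ≤ ε * H}.ncard : ℝ)) ∧
    (∀ d : ℤ, Odd d → ¬ (3 : ℤ) ∣ d → ∀ s : ℤ, s = 1 ∨ s = -1 → ∀ S : Set ℤ, Spread d s S →
      ∀ a : ℤ, ¬ (3 : ℤ) ∣ a → 0 < s * a → ∃ x ∈ S, ∃ i : ℕ, (T d)^[i] x = a) ∧
    (∀ d : ℤ, Odd d → ¬ (3 : ℤ) ∣ d → ∀ S : Set ℤ, (∀ s : ℤ, s = 1 ∨ s = -1 → Spread d s S) →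
      FiniteSetFor d S → FiniteSetFor d Set.univ) := by
  refine ⟨?_, ?_, ?_, ?_, ?_, ?_⟩
  · obtain ⟨A, hA, h⟩ := apart_rate
    exact ⟨A, hA, fun d hd s hs N hN H κ hκ => h d (Int.odd_iff.1 hd) s hs N hN H κ hκ⟩
  · intro ε hε
    obtain ⟨θ, hθ, N0, h⟩ := apart_window hε
    exact ⟨θ, hθ, N0, fun N hN d hd s hs H hH => h N hN d (Int.odd_iff.1 hd) s hs H hH⟩
  · intro d hd s hs ε hε
    exact ⟨meet_max (Int.odd_iff.1 hd) hs hε, fun g hg => meet_dens (Int.odd_iff.1 hd) hs hg hε⟩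
  · obtain ⟨c, hc, h⟩ := solid_pred
    refine ⟨c, hc, fun M ε hM hε => ?_⟩
    obtain ⟨θ, hθ, N0, h1⟩ := h M ε hM hε
    exact ⟨θ, hθ, N0, fun N hN d a hd hd3 ha haM hdM s hs hsa H hH =>
      h1 N hN d a (Int.odd_iff.1 hd) hd3 ha haM hdM s hs hsa H hH⟩
  · intro d hd hd3 s hs S hS a ha hsa
    exact spread_hit (Int.odd_iff.1 hd) hd3 ha hs hsa hS
  · rintro d hd hd3 S hS ⟨F, hF, hSF⟩
    obtain ⟨F', hF', h⟩ := finite_set (Int.odd_iff.1 hd) hd3 hS hF (fun x hx => by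
      obtain ⟨i, hi⟩ := hSF x hx
      exact ⟨_, hi, i, rfl⟩)
    refine ⟨F', hF', fun x _ => ?_⟩
    obtain ⟨y, hy, i, hi⟩ := h x
    exact ⟨i, by
      have : (T d)^[i] x = y := hi
      rw [this]; exact hy⟩

end Pool.Agent.Results.MP_d0d59f_nt.ShortProgressions
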