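import Pool.Agent.V11113.CT.Unif
import Pool.Agent.V11113.MR.BilFam

/-!
# The maps `T_d`, simultaneously for all odd `d` up to a power of `|n|`, and thin families of integers

The families consist of the integers `n = z + v i`, where `z` is an arbitrary integer with `|z| ≤ m ^ B` and the `v i` are the
least residues modulo an arbitrary large integer `m` of a family with exponential sums `O(#s m ^ (-ω))`, with an arbitrarily
small `ω > 0` (`Small`). Examples (part (2)): the values `x · Q y + f₁(x) + f₂(y)` modulo a prime `p` at the pairs of vectors of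
two arbitrary sets with `#A #A' ≥ p ^ (k + 2 ω)`; for `k = 1` this contains the products of the elements of two arbitrary sets
with `#A #A' ≥ p ^ (1 + 2 ω)` and the multiplicative subgroups of order `p ^ (1 / 2 + ω)`. Nothing else is assumed about the
family; it may have as few as about `m ^ (2 ω)` different members.

For all but a proportion `m ^ (-δ)` of the members `n` and ALL odd integers `d` with `|d| ≤ |n| ^ κ` the orbits of `n` and of `-n`
under the `3x+d` map `T_d` come down to absolute values at most `|n| ^ (1 - η)`.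
-/

set_option autoImplicit false

namespace Pool.Agent.Results.MP_d0d59f_nt.ThinFamilies

open Finset Filter Polynomial Matrix

/-- The `3x+d` map `T_d`. -/
def T (d x : ℤ) : ℤ := if x % 2 = 0 then x / 2 else (3 * x + d) / 2

/-- The exponential sums over the family `v i ∈ ℤ / m`, `i ∈ s`, at all nonzero frequencies are at most
`#s m ^ (-ω)`. (`ZMod.stdAddChar` is the character `e(x / m)`.) -/
def Small (m : ℕ) [NeZero m] (ω : ℝ) {ι : Type} (s : Finset ι) (v : ι → ZMod m) : Prop :=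
  ∀ b : ZMod m, b ≠ 0 → ‖∑ i ∈ s, (ZMod.stdAddChar (b * v i) : ℂ)‖ ≤ s.card * (m : ℝ) ^ (-ω)

open Classical in
/-- The number of the members `i` of the family for which the integer `n i` does not have the property `E`. -/
noncomputable def exceptions {ι : Type} (s : Finset ι) (n : ι → ℤ) (E : ℤ → Prop) : ℕ :=
  (s.filter (fun i => ¬ E (n i))).card

theorem exceptions_le {ι : Type} {s : Finset ι} {n : ι → ℤ} {E : ℤ → Prop} {X : ℝ}
    (h : ∀ A ⊆ s, (∀ i ∈ A, ¬ E (n i)) → (A.card : ℝ) ≤ X) : (exceptions s n E : ℝ) ≤ X := by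
  classical
  unfold exceptions
  exact h _ (filter_subset _ _) (fun S hS => (mem_filter.1 hS).2)

/-- `T_(-d)(-x) = -T_d(x)` for odd `d` -/
theorem T_neg (d x : ℤ) (hd : d % 2 = 1) : T (-d) (-x) = -T d x := by
  unfold T
  by_cases h : x % 2 = 0
  · rw [if_pos h, if_pos (by omega)]
    omega
  · rw [if_neg h, if_neg (by omega)]
    omega

theorem iter_neg (d : ℤ) (hd : d % 2 = 1) (k : ℕ) : ∀ x : ℤ, (T (-d))^[k] (-x) = -(T d)^[k] x := by
  induction k with
  | zero => intro x; rfl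
  | succ k ih =>
    intro x
    rw [Function.iterate_succ_apply, Function.iterate_succ_apply, T_neg d x hd, ih]

/-- **Main theorem.** Let `ω > 0` and `B ≥ 1`.

(1) There are `η, κ, δ > 0` and `m₀` such that for all `m ≥ m₀`, all families with `Small m ω s v` and all integers `z` with
`|z| ≤ m ^ B` all but at most `m ^ (-δ) #s` of the integers `n = z + v i` (`0 ≤ v i < m` the least residue) have the following
property: for every odd integer `d` with `|d| ≤ |n| ^ κ` some term of the orbit of `n` under `T_d` and some term of the orbit of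
`-n` under `T_d` have absolute value at most `|n| ^ (1 - η)`.

(2) `Small p ω` holds for every prime `p`, every `k`, all sets `A`, `A'` of vectors modulo `p` with
`#A #A' ≥ p ^ (k + 2 ω)`, every invertible matrix `Q` and arbitrary functions `f₁`, `f₂`, for the family
`x · Q y + f₁(x) + f₂(y)`, `x ∈ A`, `y ∈ A'`. -/
theorem result (ω : ℝ) (hω : 0 < ω) (B : ℝ) (hB : 1 ≤ B) :
    (∃ η κ δ : ℝ, 0 < η ∧ 0 < κ ∧ 0 < δ ∧ ∃ m₀ : ℕ, ∀ (m : ℕ) [NeZero m], m₀ ≤ m →
      ∀ (ι : Type) (s : Finset ι) (v : ι → ZMod m), Small m ω s v → ∀ z : ℤ, |(z : ℝ)| ≤ (m : ℝ) ^ B →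
      (exceptions s (fun i => z + ((v i).val : ℤ)) (fun n => ∀ d : ℤ, Odd d → |(d : ℝ)| ≤ |(n : ℝ)| ^ κ →
        (∃ k : ℕ, |(((T d)^[k] n : ℤ) : ℝ)| ≤ |(n : ℝ)| ^ (1 - η)) ∧
        ∃ k : ℕ, |(((T d)^[k] (-n) : ℤ) : ℝ)| ≤ |(n : ℝ)| ^ (1 - η)) : ℝ) ≤ (m : ℝ) ^ (-δ) * s.card) ∧
    (∀ (p : ℕ) [Fact p.Prime] (k : ℕ) (A A' : Finset (Fin k → ZMod p)) (Q : Matrix (Fin k) (Fin k) (ZMod p)),
      IsUnit Q.det → (p : ℝ) ^ (k + 2 * ω) ≤ A.card * A'.card → ∀ f₁ f₂ : (Fin k → ZMod p) → ZMod p,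
      Small p ω (A ×ˢ A') (fun z => z.1 ⬝ᵥ Q.mulVec z.2 + f₁ z.1 + f₂ z.2)) := by
  refine ⟨?_, ?_⟩
  swap
  · intro p _ d A A' Q hQ hN f₁ f₂ b hb
    exact Pool.Agent.V11113.MR.bil_small ω p d A A' Q hQ f₁ f₂ hN b hb
  obtain ⟨c, c₂, κ, δ, hc, hc₂, hκ, hδ, t₀, h⟩ := Pool.Agent.V11113.CT.UD.main hω
  obtain ⟨B', hB', t₁, h'⟩ := Pool.Agent.V11113.CT.size_up (X : ℤ[X]) c hc (B + 1) (by linarith)
  refine ⟨c₂ / B', κ / B', δ, by positivity, by positivity, hδ, max 2 ⌈Real.exp (max t₀ t₁)⌉₊,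
    fun m _ hm ι s v hsum z hz => ?_⟩
  have hm2 : 2 ≤ m := (le_max_left _ _).trans hm
  have hm0 : (0 : ℝ) < m := by exact_mod_cast (by omega : 0 < m)
  have ht : max t₀ t₁ ≤ Real.log m := by
    rw [Real.le_log_iff_exp_le hm0]
    exact (Nat.le_ceil _).trans (Nat.cast_le.2 ((le_max_right _ _).trans hm))
  have hconv : (m : ℝ) ^ (-δ) = Real.exp (-(δ * Real.log m)) := by
    rw [Real.rpow_def_of_pos hm0]
    congr 1
    ring
  rw [hconv]
  obtain ⟨t, htdef⟩ : ∃ t, t = Real.log m := ⟨_, rfl⟩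
  rw [← htdef] at ht ⊢
  apply exceptions_le
  intro A hA hE
  refine h m t htdef ((le_max_left _ _).trans ht) s v hsum z A hA (fun S hS => ?_)
  rintro ⟨h1, h2⟩
  apply hE S hS
  have h5 := Pool.Agent.V11113.CT.member_size hB m hm2 z hz (v S)
  rw [← htdef] at h5
  obtain ⟨n, hn⟩ : ∃ n, n = z + ((v S).val : ℤ) := ⟨_, rfl⟩
  simp only [← hn] at h1 h2 h5 ⊢
  have h3 := h' t ((le_max_right _ _).trans ht) n h5 (by
    rw [eval_X]
    exact h1)
  rw [eval_X] at h3
  have hn0 : (0 : ℝ) < |(n : ℝ)| := lt_of_lt_of_le (Real.exp_pos _) h1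
  have hpow : |(n : ℝ)| ^ (κ / B') ≤ Real.exp (κ * t) := by
    calc |(n : ℝ)| ^ (κ / B') ≤ (Real.exp (B' * t)) ^ (κ / B') := Real.rpow_le_rpow hn0.le h3 (by positivity)
      _ = Real.exp (κ * t) := by
          rw [← Real.exp_mul]
          congr 1
          field_simp
  have key : ∀ d : ℤ, Odd d → |(d : ℝ)| ≤ |(n : ℝ)| ^ (κ / B') →
      ∃ k : ℕ, |(((T d)^[k] n : ℤ) : ℝ)| ≤ |(n : ℝ)| ^ (1 - c₂ / B') := by
    intro d hd hdn
    obtain ⟨k, -, h4⟩ := h2 d (Int.odd_iff.1 hd) (hdn.trans hpow)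
    exact ⟨k, h4.trans (Pool.Agent.V11113.CT.exp_to_pow hc₂ hB' hn0 h3).1⟩
  intro d hd hdn
  refine ⟨key d hd hdn, ?_⟩
  obtain ⟨k, hk⟩ := key (-d) hd.neg (by
    rw [Int.cast_neg, abs_neg]
    exact hdn)
  refine ⟨k, ?_⟩
  have h5 := iter_neg (-d) (Int.odd_iff.1 hd.neg) k n
  rw [neg_neg] at h5
  rw [h5, Int.cast_neg, abs_neg]
  exact hk

end Pool.Agent.Results.MP_d0d59f_nt.ThinFamilies
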