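import Mathlib
import Pool.Agent.TH930.UD.Set
import Pool.Agent.Y854.GM.WinV
import Pool.Agent.V11326.WS

/-!
# The `3x+d` maps: windows of integers ALL of whose orbits come down, for all `d` at the same time

Let `v_n ≥ 1` be a sequence with exponent of convergence at most `τ`, let `κ = 1 - H`, `H = 0.94995...` the
binary entropy of `log 2 / log 3` in bits, and let `0 ≤ δ < η ≤ 1` and `θ < 1`. For every `α > 0` outside a set
of Hausdorff dimension at most `(1 - κ η + (1 - κ) δ + τ) / (1 - θ)` and all large `n`, EVERY integer `x` with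
`||x| - α v_n| ≤ v_n ^ θ` has, for EVERY odd `d` prime to `3` with `|d| ≤ v_n ^ δ`, an element of absolute
value at most `v_n ^ η` in its `3x+d` orbit. For `v_n = b ^ n` (`τ = 0`) the dimension is smaller than one as
soon as `θ + (1 - κ) δ < κ η`.
-/

set_option autoImplicit false

open Filter Topology

namespace Pool.Agent.Results.MP_d0d59f_nt.WindowsAllD

/-- the `3x+d` map on the integers -/
def T (d x : ℤ) : ℤ := if x % 2 = 0 then x / 2 else (3 * x + d) / 2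

/-- the binary entropy of `log 2 / log 3` in bits, `0.94995...` -/
noncomputable def H : ℝ := Real.binEntropy (Real.log 2 / Real.log 3) / Real.log 2

/-- the exponent of convergence of the sequence `v` is at most `τ` -/
def ExpLe (v : ℕ → ℝ) (τ : ℝ) : Prop := ∀ t : ℝ, τ < t → Summable fun n : ℕ => (v n) ^ (-t)

/-- the integers `x` with `|x| ≤ X` whose `3x+d` orbit has all its elements larger than `y` in absolute value -/
def Exc (d : ℤ) (X y : ℝ) : Set ℤ := {x : ℤ | |(x : ℝ)| ≤ X ∧ ∀ n : ℕ, y < |(((T d)^[n] x : ℤ) : ℝ)|}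

/-- the integers `t ≥ 0` such that for some `x = ± t` and some odd `d` prime to `3` with `|d| ≤ D` the `3x+d`
orbit of `x` has all its elements larger than `y` in absolute value -/
def Bad (D y : ℝ) : Set ℕ :=
  {t | ∃ x d : ℤ, |(x : ℝ)| = (t : ℝ) ∧ d % 2 = 1 ∧ ¬ (3 : ℤ) ∣ d ∧ |(d : ℝ)| ≤ D ∧
    ∀ k : ℕ, y < |(((T d)^[k] x : ℤ) : ℝ)|}

theorem fin_exc (d : ℤ) (X y : ℝ) : (Exc d X y).Finite := by
  refine (Set.finite_Icc (-⌊X⌋) ⌊X⌋).subset fun x hx => ?_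
  have h := abs_le.1 hx.1
  refine ⟨?_, Int.le_floor.2 h.2⟩
  have h2 : -x ≤ ⌊X⌋ := Int.le_floor.2 (by push_cast; linarith [h.1])
  linarith

/-- the odd `d` prime to `3` with `|d| ≤ D` -/
noncomputable def GD (D : ℝ) : Finset ℤ := (Finset.Icc (-⌊D⌋) ⌊D⌋).filter fun d => d % 2 = 1 ∧ ¬ (3 : ℤ) ∣ d ∧ |(d : ℝ)| ≤ D

theorem mem_GD {D : ℝ} {d : ℤ} (h1 : d % 2 = 1) (h3 : ¬ (3 : ℤ) ∣ d) (hD : |(d : ℝ)| ≤ D) : d ∈ GD D := by
  refine Finset.mem_filter.2 ⟨Finset.mem_Icc.2 ⟨?_, Int.le_floor.2 (abs_le.1 hD).2⟩, h1, h3, hD⟩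
  have h2 : -d ≤ ⌊D⌋ := Int.le_floor.2 (by push_cast; linarith [(abs_le.1 hD).1])
  linarith

theorem bad_count (D X y : ℝ) : {t : ℕ | t ∈ Bad D y ∧ (t : ℝ) ≤ X}.Finite ∧
    ({t : ℕ | t ∈ Bad D y ∧ (t : ℝ) ≤ X}.ncard : ℝ) ≤ ∑ d ∈ GD D, ((Exc d X y).ncard : ℝ) := by
  classical
  set F : Finset ℕ := (GD D).biUnion fun d => (fin_exc d X y).toFinset.image Int.natAbs with hF
  have hsub : {t : ℕ | t ∈ Bad D y ∧ (t : ℝ) ≤ X} ⊆ (F : Set ℕ) := by
    rintro t ⟨⟨x, d, hx, h1, h3, hD, hk⟩, htX⟩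
    simp only [hF, Finset.coe_biUnion, Set.mem_iUnion, Finset.mem_coe, Finset.mem_image, Set.Finite.mem_toFinset]
    refine ⟨d, mem_GD h1 h3 hD, x, ⟨by rw [hx]; exact htX, hk⟩, ?_⟩
    have h5 : ((x.natAbs : ℕ) : ℝ) = (t : ℝ) := by rw [← hx, Nat.cast_natAbs, Int.cast_abs]
    exact_mod_cast h5
  refine ⟨(Finset.finite_toSet F).subset hsub, ?_⟩
  have h1 : {t : ℕ | t ∈ Bad D y ∧ (t : ℝ) ≤ X}.ncard ≤ F.card := by
    rw [← Set.ncard_coe_finset F]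
    exact Set.ncard_le_ncard hsub (Finset.finite_toSet F)
  have h2 : F.card ≤ ∑ d ∈ GD D, (Exc d X y).ncard := by
    refine (Finset.card_biUnion_le).trans (Finset.sum_le_sum fun d _ => ?_)
    refine Finset.card_image_le.trans ?_
    rw [Set.ncard_eq_toFinset_card _ (fin_exc d X y)]
  exact_mod_cast h1.trans h2

/-- the conclusion of the theorem -/
def AllComeDown (v : ℕ → ℝ) (δ η θ α : ℝ) : Prop :=
  ∃ n0 : ℕ, ∀ n : ℕ, n0 ≤ n → ∀ x : ℤ, |(|(x : ℝ)| - α * v n)| ≤ (v n) ^ θ →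
    ∀ d : ℤ, d % 2 = 1 → ¬ (3 : ℤ) ∣ d → |(d : ℝ)| ≤ (v n) ^ δ →
      ∃ k : ℕ, |(((T d)^[k] x : ℤ) : ℝ)| ≤ (v n) ^ η

theorem single {v : ℕ → ℝ} {τ δ η θ c : ℝ} (hpos : ∀ n, 1 ≤ v n) (hτ : 0 ≤ τ) (hv : ExpLe v τ)
    (hδ : 0 ≤ δ) (hδη : δ < η) (hη : η ≤ 1) (hθ : θ < 1) (hc0 : 0 < c) (hc : c < 1 - H) :
    ∃ E : Set ℝ, dimH E ≤ ENNReal.ofReal ((1 - c * η + (1 - c) * δ + τ) / (1 - θ)) ∧
      ∀ α : ℝ, 0 < α → α ∉ E → AllComeDown v δ η θ α := by
  have hH : 0 < H := Pool.Agent.TH930.PS.beta_pos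
  have hc1 : c < 1 := by linarith
  have hs : 0 ≤ 1 - c * η + (1 - c) * δ := by
    have h1 : c * η ≤ 1 := by nlinarith
    have h2 : 0 ≤ (1 - c) * δ := mul_nonneg (by linarith) hδ
    linarith
  set ε : ℝ := (η - δ) / (δ + 1) with hε
  have hε0 : 0 < ε := div_pos (by linarith) (by linarith)
  have hεη : δ * (1 + ε) ≤ η := by
    have h1 : δ * ε ≤ (δ + 1) * ε := mul_le_mul_of_nonneg_right (by linarith) hε0.le
    have h2 : (δ + 1) * ε = η - δ := by rw [hε]; field_simp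
    nlinarith
  obtain ⟨C, hC, h⟩ := Pool.Agent.TH930.UD.set_saving hc0 hc hε0
  obtain ⟨E, hE1, hE2⟩ := Pool.Agent.Y854.GM.windowsV (fun n => Bad ((v n) ^ δ) ((v n) ^ η))
    (fun _ (t : ℕ) => (t : ℝ)) (v := v) (s := 1 - c * η + (1 - c) * δ) (τ := τ) (θ := θ) 1 hpos hτ hv hs hθ (by
      intro A e he
      refine ⟨C * ((A : ℝ) + 1), 0, fun n _ => ?_⟩
      have hn := hpos n
      have hn0 : 0 < v n := by linarith
      have hA : (0 : ℝ) ≤ A := Nat.cast_nonneg A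
      have hcnt := bad_count ((v n) ^ δ) (((A : ℝ) + 1) * v n) ((v n) ^ η)
      refine ⟨hcnt.1, hcnt.2.trans ?_⟩
      have h1 := h ((v n) ^ δ) (((A : ℝ) + 1) * v n) ((v n) ^ η) (Real.one_le_rpow hn hδ) (by nlinarith)
        (by
          rw [← Real.rpow_mul hn0.le]
          exact Real.rpow_le_rpow_of_exponent_le hn hεη)
        (GD ((v n) ^ δ)) (fun d hd => by
          have h2 := (Finset.mem_filter.1 hd).2
          exact ⟨Int.odd_iff.2 h2.1, h2.2⟩)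
      have h3 : ∑ d ∈ GD ((v n) ^ δ), ((Exc d (((A : ℝ) + 1) * v n) ((v n) ^ η)).ncard : ℝ) ≤
          C * ((((A : ℝ) + 1) * v n) / ((v n) ^ η) ^ c) *
            min ((GD ((v n) ^ δ)).card : ℝ) (((v n) ^ δ) ^ (1 - c)) := h1
      refine h3.trans ?_
      have h4 : C * ((((A : ℝ) + 1) * v n) / ((v n) ^ η) ^ c) *
            min ((GD ((v n) ^ δ)).card : ℝ) (((v n) ^ δ) ^ (1 - c)) ≤
          C * ((((A : ℝ) + 1) * v n) / ((v n) ^ η) ^ c) * (((v n) ^ δ) ^ (1 - c)) :=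
        mul_le_mul_of_nonneg_left (min_le_right _ _) (by positivity)
      refine h4.trans ?_
      have h5 : C * ((((A : ℝ) + 1) * v n) / ((v n) ^ η) ^ c) * (((v n) ^ δ) ^ (1 - c)) =
          C * ((A : ℝ) + 1) * (v n) ^ (1 - c * η + (1 - c) * δ) := by
        rw [← Real.rpow_mul hn0.le, ← Real.rpow_mul hn0.le, div_eq_mul_inv, ← Real.rpow_neg hn0.le]
        have h6 : (v n) ^ (1 - c * η + (1 - c) * δ) = v n * (v n) ^ (-(η * c)) * (v n) ^ (δ * (1 - c)) := by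
          nth_rewrite 2 [← Real.rpow_one (v n)]
          rw [← Real.rpow_add hn0, ← Real.rpow_add hn0]
          congr 1
          ring
        rw [h6]
        ring
      rw [h5]
      apply mul_le_mul_of_nonneg_left _ (by positivity)
      exact Real.rpow_le_rpow_of_exponent_le hn (by linarith))
  refine ⟨E, hE1, fun α hα hαE => ?_⟩
  obtain ⟨n0, hn0⟩ := hE2 α hα hαE
  refine ⟨n0, fun n hn x hx d h1 h3 hD => ?_⟩
  by_contra hcon
  push Not at hcon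
  have habs : |(x : ℝ)| = ((x.natAbs : ℕ) : ℝ) := by rw [Nat.cast_natAbs, Int.cast_abs]
  have hmem : x.natAbs ∈ Bad ((v n) ^ δ) ((v n) ^ η) := ⟨x, d, habs, h1, h3, hD, hcon⟩
  have h4 := hn0 n hn x.natAbs hmem
  rw [one_mul, ← habs] at h4
  exact absurd hx (not_le.2 h4)

/-- Let `v` be a sequence of real numbers `≥ 1` with exponent of convergence at most `τ`, `0 ≤ δ < η ≤ 1` and
`θ < 1`. There is a set `E` of Hausdorff dimension at most `(1 - (1 - H) η + H δ + τ) / (1 - θ)` such that for all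
`α > 0` outside `E` and all large `n`, for all integers `x` with `||x| - α v_n| ≤ v_n ^ θ` and all odd `d` prime
to `3` with `|d| ≤ v_n ^ δ` the `3x+d` orbit of `x` contains an element of absolute value at most `v_n ^ η`. Here
`H < 0.951`, and the sequences `(n + 1) ^ a` and `b ^ n` have exponent of convergence `1 / a` and `0`. -/
theorem result :
    (∀ (v : ℕ → ℝ) (τ δ η θ : ℝ), (∀ n, 1 ≤ v n) → 0 ≤ τ → ExpLe v τ → 0 ≤ δ → δ < η → η ≤ 1 → θ < 1 →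
      ∃ E : Set ℝ, dimH E ≤ ENNReal.ofReal ((1 - (1 - H) * η + H * δ + τ) / (1 - θ)) ∧
        ∀ α : ℝ, 0 < α → α ∉ E →
          ∃ n0 : ℕ, ∀ n : ℕ, n0 ≤ n → ∀ x : ℤ, |(|(x : ℝ)| - α * v n)| ≤ (v n) ^ θ →
            ∀ d : ℤ, d % 2 = 1 → ¬ (3 : ℤ) ∣ d → |(d : ℝ)| ≤ (v n) ^ δ →
              ∃ k : ℕ, |(((T d)^[k] x : ℤ) : ℝ)| ≤ (v n) ^ η) ∧
    H < 0.951 ∧
    (∀ a : ℝ, 0 < a → ExpLe (fun n : ℕ => ((n : ℝ) + 1) ^ a) (1 / a)) ∧
    (∀ b : ℝ, 1 < b → ExpLe (fun n : ℕ => b ^ n) 0) := by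
  have hH1 : H < 0.951 := Pool.Agent.H319R2.beta_lt
  have hH : 0 < H := Pool.Agent.TH930.PS.beta_pos
  refine ⟨?_, hH1, Pool.Agent.Y854.GM.expLe_pow, Pool.Agent.Y854.GM.expLe_geom⟩
  intro v τ δ η θ hpos hτ hv hδ hδη hη hθ
  have hall : ∀ j : ℕ, ∃ E : Set ℝ,
      dimH E ≤ ENNReal.ofReal (((1 - (1 - H) * η + H * δ) + 1 / ((j : ℝ) + 1) + τ) / (1 - θ)) ∧
      ∀ α : ℝ, 0 < α → α ∉ E → AllComeDown v δ η θ α := by
    intro j
    set m : ℝ := min ((1 - H) / 2) (1 / (2 * ((j : ℝ) + 1))) with hm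
    have hj : (0 : ℝ) < 2 * ((j : ℝ) + 1) := by positivity
    have hm0 : 0 < m := lt_min (by linarith) (by positivity)
    have hm1 : m ≤ (1 - H) / 2 := min_le_left _ _
    have hm2 : m ≤ 1 / (2 * ((j : ℝ) + 1)) := min_le_right _ _
    obtain ⟨E, hE1, hE2⟩ := single hpos hτ hv hδ hδη hη hθ (c := 1 - H - m) (by linarith) (by linarith)
    refine ⟨E, hE1.trans (ENNReal.ofReal_le_ofReal ?_), hE2⟩
    apply div_le_div_of_nonneg_right _ (by linarith)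
    have h1 : m * (η + δ) ≤ 1 / ((j : ℝ) + 1) := by
      calc m * (η + δ) ≤ (1 / (2 * ((j : ℝ) + 1))) * 2 := by
            apply mul_le_mul hm2 (by linarith) (by linarith) (by positivity)
        _ = 1 / ((j : ℝ) + 1) := by field_simp
    nlinarith
  choose E hE1 hE2 using hall
  refine ⟨⋂ j, E j, Pool.Agent.V11326.WS.inter_dim hθ E hE1, fun α hα hαE => ?_⟩
  rw [Set.mem_iInter, not_forall] at hαE
  obtain ⟨j, hj⟩ := hαE
  exact hE2 j α hα hj

end Pool.Agent.Results.MP_d0d59f_nt.WindowsAllD
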